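import Mathlib
import Pool.Agent.Results.MP_e99302_nt.EqualHeightRuns

set_option autoImplicit false

/-!
# The density of the paired integers (Garner's question)

The set of the integers whose finite height equals that of a neighbour has a natural density, equal to
the natural density `δ > 0` of the set of all integers of finite height.
-/

namespace Pool.Agent.Results.MP_c516eb_nt.PairedDensity

open Filter Topology

/-- The Collatz map. -/
def C (n : ℕ) : ℕ := if n % 2 = 0 then n / 2 else 3 * n + 1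

/-- The height of `n` is finite and equal to `h`: `h` is the least `k` with `C^k n = 1`. -/
def HasHeight (n h : ℕ) : Prop := C^[h] n = 1 ∧ ∀ j < h, C^[j] n ≠ 1

/-- `n` is paired: its height is finite and equal to the height of `n - 1` (`n ≥ 2`) or of `n + 1`. -/
def Paired (n : ℕ) : Prop :=
  ∃ h : ℕ, HasHeight n h ∧ ((2 ≤ n ∧ HasHeight (n - 1) h) ∨ HasHeight (n + 1) h)

/-- The number of the positive integers `n ≤ N` with the property `P`. -/
noncomputable def count (P : ℕ → Prop) (N : ℕ) : ℕ := {n : ℕ | 1 ≤ n ∧ n ≤ N ∧ P n}.ncard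

theorem C_eq : C = Pool.Agent.Results.MP_e99302_nt.EqualHeightRuns.C := rfl

/-- There is a number `0 < δ ≤ 1` such that both the set `E` of the paired integers and the set of the
integers of finite height have natural density `δ`; and `δ = 1` if and only if every positive integer
has finite height. So the lower density of `E` is greater than `1/2` if and only if `δ > 1/2`, and it
is `1` if the Collatz conjecture is true. -/
theorem result : ∃ δ : ℝ, 0 < δ ∧ δ ≤ 1 ∧
    Tendsto (fun N : ℕ => (count Paired N : ℝ) / N) atTop (𝓝 δ) ∧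
    Tendsto (fun N : ℕ => (count (fun n => ∃ h, HasHeight n h) N : ℝ) / N) atTop (𝓝 δ) ∧
    (δ = 1 ↔ ∀ n : ℕ, 1 ≤ n → ∃ h, HasHeight n h) ∧
    (1 / 2 < liminf (fun N : ℕ => (count Paired N : ℝ) / N) atTop ↔ 1 / 2 < δ) := by
  classical
  obtain ⟨-, δ, h0, h1, h2, h3, h4⟩ := Pool.Agent.Results.MP_e99302_nt.EqualHeightRuns.result
  have hex : ∀ n : ℕ, (∃ k, Pool.Agent.Results.MP_e99302_nt.EqualHeightRuns.C^[k] n = 1) ↔
      ∃ h, HasHeight n h := by
    intro n
    constructor
    · intro h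
      exact ⟨Nat.find h, Nat.find_spec h, fun j hj => Nat.find_min h hj⟩
    · rintro ⟨h, hh⟩
      exact ⟨h, hh.1⟩
  have h5 := h4 (fun _ => 1) (by
    have hlog : Tendsto (fun n : ℕ => Real.log n) atTop atTop :=
      Real.tendsto_log_atTop.comp tendsto_natCast_atTop_atTop
    have h1 : Tendsto (fun x : ℝ => Real.log x / x ^ ((1 : ℝ) / 2)) atTop (𝓝 0) :=
      (isLittleO_log_rpow_atTop (by norm_num : (0 : ℝ) < 1 / 2)).tendsto_div_nhds_zero
    refine (h1.comp hlog).congr (fun n => ?_)
    simp only [Function.comp]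
    rw [Real.sqrt_eq_rpow]
    push_cast
    ring)
  have hall : Tendsto (fun N : ℕ => (count (fun n => ∃ h, HasHeight n h) N : ℝ) / N) atTop (𝓝 δ) := by
    refine h3.congr (fun N => ?_)
    unfold count
    simp only [hex]
  have hlow : Tendsto (fun N : ℕ => (({n : ℕ | 1 ≤ n ∧ n ≤ N ∧ ∃ h : ℕ, ∀ i ≤ 1,
      Pool.Agent.Results.MP_e99302_nt.EqualHeightRuns.HasHeight (n + i) h} : Set ℕ).ncard : ℝ) / N)
      atTop (𝓝 δ) := h5
  have hfin : ∀ (P : ℕ → Prop) (N : ℕ), {n : ℕ | 1 ≤ n ∧ n ≤ N ∧ P n}.Finite := by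
    intro P N
    apply (Set.finite_Icc 1 N).subset
    rintro n ⟨h1, h2, -⟩
    exact ⟨h1, h2⟩
  have hP : Tendsto (fun N : ℕ => (count Paired N : ℝ) / N) atTop (𝓝 δ) := by
    refine tendsto_of_tendsto_of_tendsto_of_le_of_le hlow hall (fun N => ?_) (fun N => ?_)
    · apply div_le_div_of_nonneg_right _ (Nat.cast_nonneg N)
      unfold count
      have hsub : {n : ℕ | 1 ≤ n ∧ n ≤ N ∧ ∃ h : ℕ, ∀ i ≤ 1,
          Pool.Agent.Results.MP_e99302_nt.EqualHeightRuns.HasHeight (n + i) h} ⊆
          {n : ℕ | 1 ≤ n ∧ n ≤ N ∧ Paired n} := by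
        rintro n ⟨a1, a2, h, a3⟩
        exact ⟨a1, a2, h, a3 0 (by norm_num), Or.inr (a3 1 le_rfl)⟩
      have := Set.ncard_le_ncard hsub (hfin _ N)
      exact Nat.cast_le.2 this
    · apply div_le_div_of_nonneg_right _ (Nat.cast_nonneg N)
      unfold count
      have hsub : {n : ℕ | 1 ≤ n ∧ n ≤ N ∧ Paired n} ⊆
          {n : ℕ | 1 ≤ n ∧ n ≤ N ∧ ∃ h, HasHeight n h} := by
        rintro n ⟨a1, a2, h, a3, -⟩
        exact ⟨a1, a2, h, a3⟩
      have := Set.ncard_le_ncard hsub (hfin _ N)
      exact Nat.cast_le.2 this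
  refine ⟨δ, h0, h1, hP, hall, ?_, ?_⟩
  · rw [h2]
    simp only [hex]
  · rw [hP.liminf_eq]

end Pool.Agent.Results.MP_c516eb_nt.PairedDensity
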